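import Pool.Agent.helper82.SC.SpecC

/-!
# sp:CUN, uniqueness at the fourth corner
-/

namespace Pool.Agent.helper82.SC

open Relation Filter Topology Complex MeasureTheory
open scoped Interval ComplexConjugate

/-- The reflection in the diagonal from `I` to `1`. -/
noncomputable def UN_r (w : ℂ) : ℂ := 1 + I - I * conj w

theorem UN_r_re (w : ℂ) : (UN_r w).re = 1 - w.im := by
  simp [UN_r]

theorem UN_r_im (w : ℂ) : (UN_r w).im = 1 - w.re := by
  simp [UN_r]

theorem UN_r_r (w : ℂ) : UN_r (UN_r w) = w := by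
  apply Complex.ext
  · rw [UN_r_re, UN_r_im]; ring
  · rw [UN_r_im, UN_r_re]; ring

theorem UN_cont : Continuous UN_r := by
  unfold UN_r
  exact continuous_const.sub (continuous_const.mul Complex.continuous_conj)

theorem UN_Qs {w : ℂ} (hw : w ∈ Qs) : UN_r w ∈ Qs := by
  obtain ⟨h1, h2, h3, h4⟩ := hw
  have e1 := UN_r_re w
  have e2 := UN_r_im w
  refine ⟨?_, ?_, ?_, ?_⟩ <;> linarith

theorem UN_int {w : ℂ} (hw : w ∈ interior Qs) : UN_r w ∈ interior Qs := by
  have h1 : IsOpen (UN_r ⁻¹' interior Qs) := isOpen_interior.preimage UN_cont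
  have h2 : UN_r ⁻¹' interior Qs ⊆ Qs := by
    intro z hz
    have := UN_Qs (interior_subset hz)
    rwa [UN_r_r] at this
  have h3 : UN_r w ∈ UN_r ⁻¹' interior Qs := by
    show UN_r (UN_r w) ∈ interior Qs
    rwa [UN_r_r]
  exact interior_maximal h2 h1 h3

/-- The points of the frontier are on the arcs. -/
theorem UN_front {w : ℂ} (hw : w ∈ frontier Qs) : ∃ j, w ∈ arc j := by
  have hcl : IsClosed Qs := by
    have : Qs = (Complex.re ⁻¹' Set.Icc 0 1) ∩ (Complex.im ⁻¹' Set.Icc 0 1) := by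
      ext z
      simp only [Qs, Set.mem_setOf_eq, Set.mem_inter_iff, Set.mem_preimage, Set.mem_Icc]
      tauto
    rw [this]
    exact (isClosed_Icc.preimage Complex.continuous_re).inter
      (isClosed_Icc.preimage Complex.continuous_im)
  have hwQ : w ∈ Qs := hcl.frontier_subset hw
  have hni : w ∉ interior Qs := hw.2
  by_contra hc
  push Not at hc
  apply hni
  have ho : IsOpen ((Complex.re ⁻¹' Set.Ioo 0 1) ∩ (Complex.im ⁻¹' Set.Ioo 0 1)) :=
    (isOpen_Ioo.preimage Complex.continuous_re).inter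
      (isOpen_Ioo.preimage Complex.continuous_im)
  refine interior_maximal ?_ ho ?_
  · rintro z ⟨⟨h1, h2⟩, ⟨h3, h4⟩⟩
    exact ⟨h1.le, h2.le, h3.le, h4.le⟩
  · obtain ⟨h1, h2, h3, h4⟩ := hwQ
    have c0 := hc 0
    have c1 := hc 1
    have c2 := hc 2
    have hQ : w ∈ Qs := ⟨h1, h2, h3, h4⟩
    simp only [arc, Set.mem_setOf_eq, hQ, true_and, if_true, not_or] at c0
    simp only [arc, Set.mem_setOf_eq, hQ, true_and, one_ne_zero, if_false, if_true] at c1
    have c2' : ¬ w.re = 0 := by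
      intro h
      exact c2 ⟨hQ, by simpa using h⟩
    exact ⟨⟨lt_of_le_of_ne h1 (Ne.symm c2'), lt_of_le_of_ne h2 c0.2⟩,
      ⟨lt_of_le_of_ne h3 (Ne.symm c0.1), lt_of_le_of_ne h4 c1⟩⟩

theorem UN_arc0 {w : ℂ} (hw : w ∈ arc 0) : UN_r w ∈ arc 0 := by
  obtain ⟨h1, h2⟩ := hw
  refine ⟨UN_Qs h1, ?_⟩
  simp only [if_true] at h2 ⊢
  rw [UN_r_re, UN_r_im]
  rcases h2 with h2 | h2
  · right; linarith
  · left; linarith

theorem UN_arc1 {w : ℂ} (hw : w ∈ arc 1) : UN_r w ∈ arc 2 := by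
  obtain ⟨h1, h2⟩ := hw
  refine ⟨UN_Qs h1, ?_⟩
  have h3 : w.im = 1 := by simpa using h2
  have : (UN_r w).re = 0 := by rw [UN_r_re]; linarith
  simpa using this

theorem UN_arc2 {w : ℂ} (hw : w ∈ arc 2) : UN_r w ∈ arc 1 := by
  obtain ⟨h1, h2⟩ := hw
  refine ⟨UN_Qs h1, ?_⟩
  have h3 : w.re = 0 := by simpa using h2
  have : (UN_r w).im = 1 := by rw [UN_r_im]; linarith
  simpa using this

theorem UN_tau_sq : tau ^ 2 = ⟨-1 / 2, -(Real.sqrt 3 / 2)⟩ := by
  have h3 : Real.sqrt 3 * Real.sqrt 3 = 3 := Real.mul_self_sqrt (by norm_num)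
  rw [sq]
  apply Complex.ext
  · simp only [tau, Complex.mul_re]
    nlinarith
  · simp only [tau, Complex.mul_im]
    ring

theorem UN_conj_tau : conj tau = tau ^ 2 := by
  rw [UN_tau_sq]
  apply Complex.ext <;> simp [tau]

theorem UN_conj_tau_sq : conj (tau ^ 2) = tau := by
  rw [← UN_conj_tau, Complex.conj_conj]

/-- Real and imaginary part. -/
theorem UN_re (a b c : ℝ) : ((a : ℂ) + tau * b + tau ^ 2 * c).re = a - (b + c) / 2 := by
  rw [UN_tau_sq]
  simp only [tau, Complex.add_re, Complex.mul_re, Complex.ofReal_re, Complex.ofReal_im]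
  ring

theorem UN_im (a b c : ℝ) : ((a : ℂ) + tau * b + tau ^ 2 * c).im = Real.sqrt 3 / 2 * (b - c) := by
  rw [UN_tau_sq]
  simp only [tau, Complex.add_im, Complex.mul_im, Complex.ofReal_re, Complex.ofReal_im]
  ring

theorem UN_cube (a b c : ℝ) (h : a + b + c = 0) :
    (((a : ℂ) + tau * b + tau ^ 2 * c) ^ 3).re = 27 / 2 * (a * b * c) := by
  have h3 : Real.sqrt 3 ^ 2 = 3 := Real.sq_sqrt (by norm_num)
  have e1 := UN_re a b c
  have e2 := UN_im a b c
  set z : ℂ := (a : ℂ) + tau * b + tau ^ 2 * c with hz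
  have e3 : (z ^ 3).re = z.re ^ 3 - 3 * z.re * z.im ^ 2 := by
    rw [pow_succ, pow_two, Complex.mul_re, Complex.mul_re, Complex.mul_im]
    ring
  rw [e3, e1, e2, mul_pow, div_pow, h3]
  have ha : a = -(b + c) := by linarith
  rw [ha]
  ring

theorem UN_FF (h : Fin 3 → ℂ → ℝ) (w : ℂ) :
    FF h w = (h 0 w : ℂ) + tau * h 1 w + tau ^ 2 * h 2 w := by
  unfold FF
  rw [Fin.sum_univ_three]
  simp

theorem UN_FFc (h : Fin 3 → ℂ → ℝ) (w : ℂ) :
    conj (FF h w) = (h 0 w : ℂ) + tau * h 2 w + tau ^ 2 * h 1 w := by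
  rw [UN_FF]
  simp only [map_add, map_mul, Complex.conj_ofReal, UN_conj_tau, UN_conj_tau_sq, map_pow]
  have : (tau ^ 2) ^ 2 = tau := by
    rw [← UN_conj_tau, ← map_pow, UN_conj_tau_sq]
  rw [this]
  ring

/-- The difference of the observable and its reflection. -/
noncomputable def UN_d (h : Fin 3 → ℂ → ℝ) (w : ℂ) : ℂ := FF h w - conj (FF h (UN_r w))

theorem UN_d_eq (h : Fin 3 → ℂ → ℝ) (w : ℂ) :
    UN_d h w = ((h 0 w - h 0 (UN_r w) : ℝ) : ℂ) + tau * ((h 1 w - h 2 (UN_r w) : ℝ) : ℂ) +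
      tau ^ 2 * ((h 2 w - h 1 (UN_r w) : ℝ) : ℂ) := by
  unfold UN_d
  rw [UN_FF, UN_FFc]
  push_cast
  ring

theorem UN (hRG : RG_stmt) : UN_stmt := by
  intro h hc hd hs ha hco
  have hFc : ContinuousOn (FF h) Qs := by
    unfold FF
    refine continuousOn_finset_sum _ fun j _ => ?_
    exact continuousOn_const.mul (Complex.continuous_ofReal.comp_continuousOn (hc j))
  have hdc : ContinuousOn (UN_d h) Qs := by
    unfold UN_d
    refine hFc.sub ?_
    refine Complex.continuous_conj.comp_continuousOn ?_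
    exact hFc.comp UN_cont.continuousOn (fun w hw => UN_Qs hw)
  have hdd : DifferentiableOn ℂ (UN_d h) (interior Qs) := by
    unfold UN_d
    refine hd.sub ?_
    intro w hw
    apply DifferentiableAt.differentiableWithinAt
    have h1 : DifferentiableAt ℂ (FF h) (UN_r w) :=
      hd.differentiableAt (isOpen_interior.mem_nhds (UN_int hw))
    have h2 : DifferentiableAt ℂ (fun u => FF h (1 + I - I * u)) (conj w) := by
      have h3 : DifferentiableAt ℂ (fun u : ℂ => 1 + I - I * u) (conj w) := by fun_prop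
      exact DifferentiableAt.comp (conj w) (f := fun u : ℂ => 1 + I - I * u) (g := FF h) h1 h3
    exact (differentiableAt_conj_conj_iff (f := fun u => FF h (1 + I - I * u))).2 h2
  have h0a : (0 : ℂ) ∈ arc 0 := by
    refine ⟨⟨?_, ?_, ?_, ?_⟩, ?_⟩ <;> simp
  have h0b : (0 : ℂ) ∈ arc 2 := by
    refine ⟨⟨?_, ?_, ?_, ?_⟩, ?_⟩ <;> simp
  have h1a : (1 : ℂ) ∈ arc 0 := by
    refine ⟨⟨?_, ?_, ?_, ?_⟩, ?_⟩ <;> simp
  have hr1 : UN_r 1 = 1 := by
    apply Complex.ext
    · rw [UN_r_re]; simp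
    · rw [UN_r_im]; simp
  have hfr : ∀ w ∈ frontier Qs, ((UN_d h w) ^ 3).re = 0 := by
    intro w hw
    obtain ⟨j, hj⟩ := UN_front hw
    have hwQ : w ∈ Qs := hj.1
    have s1 := hs w hwQ
    have s2 := hs (UN_r w) (UN_Qs hwQ)
    rw [Fin.sum_univ_three] at s1 s2
    rw [UN_d_eq, UN_cube _ _ _ (by linarith)]
    have hj' : j = 0 ∨ j = 1 ∨ j = 2 := by
      fin_cases j <;> simp
    rcases hj' with rfl | rfl | rfl
    · have t1 := ha 0 w hj
      have t2 := ha 0 _ (UN_arc0 hj)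
      rw [t1, t2]; ring
    · have t1 := ha 1 w hj
      have t2 := ha 2 _ (UN_arc1 hj)
      rw [t1, t2]; ring
    · have t1 := ha 2 w hj
      have t2 := ha 1 _ (UN_arc2 hj)
      rw [t1, t2]; ring
  have hd0 : UN_d h 0 = 0 := by
    have hr0 : UN_r 0 = co 2 := by
      apply Complex.ext
      · rw [UN_r_re]; simp [co]
      · rw [UN_r_im]; simp [co]
    have hc1 : co 1 = 0 := by simp [co]
    have hc2 : co 2 ∈ arc 0 := by
      rw [← hr0]; exact UN_arc0 h0a
    have hc2' : co 2 ∈ arc 1 := by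
      rw [← hr0]; exact UN_arc2 h0b
    have t1 : h 1 0 = 1 := by
      have := hco 1
      rwa [hc1] at this
    have t2 := ha 0 0 h0a
    have t3 := ha 2 0 h0b
    have t4 := hco 2
    have t5 := ha 0 _ hc2
    have t6 := ha 1 _ hc2'
    rw [UN_d_eq, hr0, t1, t2, t3, t4, t5, t6]
    simp
  have key := hRG (UN_d h) hdc hdd hfr hd0 1 h1a.1
  have s1 := hs 1 h1a.1
  rw [Fin.sum_univ_three] at s1
  have t0 := ha 0 1 h1a
  have him : (UN_d h 1).im = 0 := by rw [key]; simp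
  rw [UN_d_eq, UN_im, hr1] at him
  have h3 : (0 : ℝ) < Real.sqrt 3 := Real.sqrt_pos.2 (by norm_num)
  have him' : (h 1 1 - h 2 1) - (h 2 1 - h 1 1) = 0 := by
    rcases mul_eq_zero.1 him with h4 | h4
    · linarith
    · exact h4
  constructor <;> linarith

end Pool.Agent.helper82.SC
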